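import Pool.Agent.W823.QT.Stm

/-!
# QT-GRD: moments of the quenched weight on a grid
-/

set_option autoImplicit false
set_option maxHeartbeats 1000000

namespace Pool.Agent.W554.QTGRD

open MeasureTheory ProbabilityTheory Filter Topology Pool.Agent.W845.Traps Pool.Agent.W823.QT
open scoped ENNReal NNReal

universe u v

theorem En_cont : Continuous En := by
  unfold En
  exact ENNReal.continuous_exp.comp (continuous_neg.comp continuous_coe_ennreal_ereal)

theorem En_meas : Measurable En := En_cont.measurable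

theorem sum_range_eq {Ω' : Type*} (N : Ω' → ℕ) (f : ℕ → Ω' → ℝ≥0∞) (ω : Ω') :
    ∑ j ∈ Finset.range (N ω), f j ω = ∑' j, ({ω | j < N ω} : Set Ω').indicator (f j) ω := by
  rw [tsum_eq_sum (s := Finset.range (N ω))]
  · refine Finset.sum_congr rfl fun j hj => ?_
    rw [Set.indicator_of_mem (show ω ∈ {ω | j < N ω} from Finset.mem_range.1 hj)]
  · intro j hj
    rw [Set.indicator_of_notMem]
    intro h
    exact hj (Finset.mem_range.2 h)

theorem sum_range_meas {Ω' : Type*} [MeasurableSpace Ω'] {N : Ω' → ℕ} (hN : Measurable N)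
    {f : ℕ → Ω' → ℝ≥0∞} (hf : ∀ j, Measurable (f j)) :
    Measurable fun ω => ∑ j ∈ Finset.range (N ω), f j ω := by
  simp_rw [sum_range_eq]
  refine Measurable.tsum fun j => ?_
  exact (hf j).indicator (measurableSet_lt measurable_const hN)

theorem hitsg_meas {d : ℕ} {Ω : Type*} [MeasurableSpace Ω] {N : (Fin d → ℤ) → Ω → ℕ}
    {Y : (Fin d → ℤ) → ℕ → ℝ≥0 → Ω → Fin d → ℤ} (hN : ∀ y, Measurable (N y))
    (hY : ∀ y j s, Measurable (Y y j s)) (h : ℝ≥0) (m : ℕ) (x : ℕ → Fin d → ℤ) :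
    Measurable (hitsg N Y h m x) := by
  classical
  unfold hitsg
  refine Measurable.tsum fun y => ?_
  refine sum_range_meas (hN y) fun j => ?_
  simp_rw [Finset.card_filter]
  push_cast
  refine Finset.measurable_sum _ fun k _ => ?_
  refine Measurable.ite ?_ measurable_const measurable_const
  exact (hY y j (k * h)) (MeasurableSet.of_discrete (s := {z | y + z = x k}))

theorem hitsg_congr {d : ℕ} {Ω : Type*} {N : (Fin d → ℤ) → Ω → ℕ}
    {Y : (Fin d → ℤ) → ℕ → ℝ≥0 → Ω → Fin d → ℤ} (h : ℝ≥0) (m : ℕ) (x x' : ℕ → Fin d → ℤ)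
    (hx : ∀ k ≤ m, x k = x' k) (ω : Ω) : hitsg N Y h m x ω = hitsg N Y h m x' ω := by
  classical
  unfold hitsg
  refine tsum_congr fun y => Finset.sum_congr rfl fun j _ => ?_
  congr 2
  refine Finset.filter_congr fun k hk => ?_
  rw [hx k (Finset.mem_Icc.1 hk).2]

theorem Cn_congr {d : ℕ} (e : ℝ≥0∞) (r : Measure (Fin d → ℤ)) (m : ℕ) (x x' : ℕ → Fin d → ℤ)
    (hx : ∀ k ≤ m, x k = x' k) : Cn e r m x = Cn e r m x' := by
  classical
  unfold Cn
  refine tsum_congr fun y => ?_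
  congr 1
  refine lintegral_congr fun w => Finset.prod_congr rfl fun i hi => ?_
  rw [hx i (Finset.mem_Icc.1 hi).2]

theorem C2_congr {d : ℕ} (e : ℝ≥0∞) (r : Measure (Fin d → ℤ)) (m : ℕ)
    (x x' z z' : ℕ → Fin d → ℤ)
    (hx : ∀ k ≤ m, x k = x' k) (hz : ∀ k ≤ m, z k = z' k) : C2 e r m x z = C2 e r m x' z' := by
  classical
  unfold C2
  refine tsum_congr fun y => ?_
  congr 1
  refine lintegral_congr fun w => Finset.prod_congr rfl fun i hi => ?_
  rw [hx i (Finset.mem_Icc.1 hi).2, hz i (Finset.mem_Icc.1 hi).2]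

/-- extension of a finite sequence -/
def ext {d m : ℕ} (a : Fin (m + 1) → Fin d → ℤ) (k : ℕ) : Fin d → ℤ :=
  if h : k < m + 1 then a ⟨k, h⟩ else 0

theorem main (h1 : GRIDW_T.{v}) (h2 : LAPC_T.{u}) (_h3 : MEAS_T) : GRD_T.{u,v} := by
  intro d Ω _ P _ Ω' _ P' _ κ ρ ν X N Y hX hT θ h m Φ
  have hYm : ∀ y j s, Measurable (Y y j s) := fun y j s => (hT.trap y j).meas s
  -- the grid path
  set g : Ω' → Fin (m + 1) → Fin d → ℤ := fun ω' k => X ((k : ℕ) * h) ω' with hg
  have hgm : Measurable g := measurable_pi_lambda _ fun k => hX.meas _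
  have hge : ∀ ω', ∀ k ≤ m, X ((k : ℕ) * h) ω' = ext (g ω') k := by
    intro ω' k hk
    unfold ext
    rw [dif_pos (Nat.lt_succ_of_le hk)]
  -- joint measurability
  have hjoint : ∀ Φ : (Fin d → ℤ) → ℝ≥0∞, Measurable fun q : Ω' × Ω =>
      Φ (X (m * h) q.1) * En (θ * hitsg N Y h m (fun k => X (k * h) q.1) q.2) := by
    intro Φ
    have hH : Measurable fun q : (Fin (m + 1) → Fin d → ℤ) × Ω =>
        Φ (ext q.1 m) * En (θ * hitsg N Y h m (ext q.1) q.2) := by
      refine measurable_from_prod_countable_right fun a => ?_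
      have h5 : Measurable fun ω => En (θ * hitsg N Y h m (ext a) ω) :=
        En_meas.comp ((hitsg_meas hT.number_meas hYm h m (ext a)).const_mul _)
      exact h5.const_mul (Φ (ext a m))
    have e : (fun q : Ω' × Ω =>
        Φ (X (m * h) q.1) * En (θ * hitsg N Y h m (fun k => X (k * h) q.1) q.2)) =
        (fun q : (Fin (m + 1) → Fin d → ℤ) × Ω =>
          Φ (ext q.1 m) * En (θ * hitsg N Y h m (ext q.1) q.2)) ∘
          (fun q : Ω' × Ω => (g q.1, q.2)) := by
      funext q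
      simp only [Function.comp_apply]
      rw [hitsg_congr h m _ _ (hge q.1), hge q.1 m le_rfl]
    rw [e]
    exact hH.comp ((hgm.comp measurable_fst).prodMk measurable_snd)
  have hqm : ∀ Φ : (Fin d → ℤ) → ℝ≥0∞, Measurable (qg P' θ X N Y h m Φ) := fun Φ =>
    (hjoint Φ).lintegral_prod_left'
  have hEm : ∀ x : ℕ → Fin d → ℤ, Measurable fun ω => En (θ * hitsg N Y h m x ω) := fun x =>
    En_meas.comp ((hitsg_meas hT.number_meas hYm h m x).const_mul _)
  refine ⟨hqm Φ, ?_, ?_⟩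
  · -- first moment
    have e1 : ∫⁻ ω, qg P' θ X N Y h m Φ ω ∂P = ∫⁻ ω', ∫⁻ ω,
        Φ (X (m * h) ω') * En (θ * hitsg N Y h m (fun k => X (k * h) ω') ω) ∂P ∂P' := by
      unfold qg
      rw [lintegral_lintegral_swap]
      exact ((hjoint Φ).comp measurable_swap).aemeasurable
    rw [e1]
    have e2 : ∀ ω', ∫⁻ ω,
        Φ (X (m * h) ω') * En (θ * hitsg N Y h m (fun k => X (k * h) ω') ω) ∂P =
        Φ (X (m * h) ω') * En (ν * Cn (En θ) (stepLaw d ρ h) m (fun k => X (k * h) ω')) := by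
      intro ω'
      rw [lintegral_const_mul _ (hEm _),
        (h2 d Ω P ρ ν N Y hT θ h m (fun k => X (k * h) ω') (fun k => X (k * h) ω')).1]
    simp_rw [e2]
    exact h1 d Ω' P' κ X hX h m
      (fun x => Φ (x m) * En (ν * Cn (En θ) (stepLaw d ρ h) m x)) (fun x x' hx => by
        rw [Cn_congr _ _ m x x' hx, hx m le_rfl])
  · -- second moment
    set f : Ω' → Ω → ℝ≥0∞ := fun ω' ω => En (θ * hitsg N Y h m (fun k => X (k * h) ω') ω) with hf
    have hfm : Measurable fun q : Ω' × Ω => f q.1 q.2 := by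
      have := hjoint (fun _ => 1)
      simpa only [one_mul] using this
    have hq : ∀ ω, qg P' θ X N Y h m (fun _ => 1) ω = ∫⁻ ω', f ω' ω ∂P' := by
      intro ω
      unfold qg
      simp only [one_mul]
      rfl
    have hfq : Measurable fun ω => ∫⁻ ω', f ω' ω ∂P' := hfm.lintegral_prod_left'
    have hf1 : ∀ ω, Measurable fun ω' => f ω' ω := fun ω =>
      hfm.comp (g := fun q : Ω' × Ω => f q.1 q.2) (f := fun ω' : Ω' => ((ω', ω) : Ω' × Ω))
        (measurable_id.prodMk measurable_const)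
    have hf2 : ∀ ω', Measurable fun ω => f ω' ω := fun ω' =>
      hfm.comp (g := fun q : Ω' × Ω => f q.1 q.2) (f := fun ω : Ω => ((ω', ω) : Ω' × Ω))
        (measurable_const.prodMk measurable_id)
    have e1 : ∫⁻ ω, (qg P' θ X N Y h m (fun _ => 1) ω) ^ 2 ∂P =
        ∫⁻ ω', ∫⁻ ω'', ∫⁻ ω, f ω' ω * f ω'' ω ∂P ∂P' ∂P' := by
      calc ∫⁻ ω, (qg P' θ X N Y h m (fun _ => 1) ω) ^ 2 ∂P
          = ∫⁻ ω, ∫⁻ ω', f ω' ω * (∫⁻ ω'', f ω'' ω ∂P') ∂P' ∂P := by
            refine lintegral_congr fun ω => ?_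
            rw [hq, pow_two, lintegral_mul_const _ (hf1 ω)]
        _ = ∫⁻ ω', ∫⁻ ω, f ω' ω * (∫⁻ ω'', f ω'' ω ∂P') ∂P ∂P' := by
            rw [lintegral_lintegral_swap]
            exact ((hfm.comp measurable_swap).mul (hfq.comp measurable_fst)).aemeasurable
        _ = ∫⁻ ω', ∫⁻ ω, ∫⁻ ω'', f ω' ω * f ω'' ω ∂P' ∂P ∂P' := by
            refine lintegral_congr fun ω' => lintegral_congr fun ω => ?_
            rw [lintegral_const_mul _ (hf1 ω)]
        _ = _ := by
            refine lintegral_congr fun ω' => ?_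
            rw [lintegral_lintegral_swap]
            exact (((hf2 ω').comp measurable_fst).mul (hfm.comp measurable_swap)).aemeasurable
    rw [e1]
    have e2 : ∀ ω' ω'', ∫⁻ ω, f ω' ω * f ω'' ω ∂P = En (ν * C2 (En θ) (stepLaw d ρ h) m
        (fun k => X (k * h) ω') (fun k => X (k * h) ω'')) := fun ω' ω'' =>
      (h2 d Ω P ρ ν N Y hT θ h m (fun k => X (k * h) ω') (fun k => X (k * h) ω'')).2
    simp_rw [e2]
    have e3 : ∀ ω', ∫⁻ ω'', En (ν * C2 (En θ) (stepLaw d ρ h) m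
        (fun k => X (k * h) ω') (fun k => X (k * h) ω'')) ∂P' =
        ∫⁻ a', En (ν * C2 (En θ) (stepLaw d ρ h) m
        (fun k => X (k * h) ω') (pos a')) ∂(iid (stepLaw d κ h)) := fun ω' =>
      h1 d Ω' P' κ X hX h m (fun x => En (ν * C2 (En θ) (stepLaw d ρ h) m
        (fun k => X (k * h) ω') x)) (fun x x' hx => by
          rw [C2_congr _ _ m _ _ x x' (fun _ _ => rfl) hx])
    simp_rw [e3]
    exact h1 d Ω' P' κ X hX h m (fun x => ∫⁻ a', En (ν * C2 (En θ) (stepLaw d ρ h) m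
        x (pos a')) ∂(iid (stepLaw d κ h))) (fun x x' hx => by
          refine lintegral_congr fun a' => ?_
          rw [C2_congr _ _ m x x' (pos a') (pos a') hx (fun _ _ => rfl)])

end Pool.Agent.W554.QTGRD
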