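import Pool.Agent.W510.CG.Stm

/-!
Project CG, parts FOUR and TOP.
-/

set_option autoImplicit false

namespace Pool.Agent.W554.CGFour

open Pool.Agent.W510.CG

theorem exists_four {M : Type} [Infinite M] (E : Finset M) (hE : E.card ≤ 4) :
    ∃ a b c d : M, Dist4 a b c d ∧ (E : Set M) ⊆ {a, b, c, d} := by
  classical
  obtain ⟨t, ht, htc⟩ := Infinite.exists_superset_card_eq E 4 hE
  obtain ⟨a, t', ha, hat, htc'⟩ := Finset.card_eq_succ.1 htc
  obtain ⟨b, c, d, hbc, hbd, hcd, rfl⟩ := Finset.card_eq_three.1 htc'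
  simp only [Finset.mem_insert, Finset.mem_singleton, not_or] at ha
  refine ⟨a, b, c, d, ⟨ha.1, ha.2.1, ha.2.2, hbc, hbd, hcd⟩, ?_⟩
  intro x hx
  have h1 := ht hx
  rw [← hat] at h1
  simpa using h1

theorem infinite_of_tree {M V B : Type} {br : V → M → B} {G : Subgroup (Equiv.Perm M)}
    (hV : Nonempty V) (hT : IsTree br G) : Infinite M := by
  classical
  by_contra hcon
  rw [not_infinite_iff_finite] at hcon
  haveI := Fintype.ofFinite M
  obtain ⟨γ⟩ := hV
  obtain ⟨x, hx⟩ := hT.inf γ (Finset.univ.image (br γ))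
  exact hx (Finset.mem_image_of_mem _ (Finset.mem_univ x))

theorem main (h : S_IV) : S_FOUR := by
  classical
  intro M V B br G H hV hT hGH h4
  haveI := infinite_of_tree hV hT
  have key : ∀ (n : ℕ) (E : Finset M), E.card = n → Z br H (E : Set M) := by
    intro n
    induction n with
    | zero =>
      intro E hE
      obtain ⟨a, b, c, d, hd, hs⟩ := exists_four E (by omega)
      exact (h4 a b c d hd).mono hs
    | succ n ih =>
      intro E hE
      by_cases hn : n + 1 ≤ 4
      · obtain ⟨a, b, c, d, hd, hs⟩ := exists_four E (by omega)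
        exact (h4 a b c d hd).mono hs
      · obtain ⟨x, hx⟩ : E.Nonempty := by
          rw [← Finset.card_pos]; omega
        have hE' : (E.erase x).card = n := by
          rw [Finset.card_erase_of_mem hx]; omega
        obtain ⟨g, hg, γ, hi⟩ := ih (E.erase x) hE'
        by_cases hex : ∃ a ∈ E.erase x, br γ (g x) = br γ (g a)
        · obtain ⟨a, ha, hxa⟩ := hex
          obtain ⟨b, hb, hba⟩ : ∃ b ∈ E.erase x, b ≠ a :=
            Finset.exists_mem_ne (by omega) a
          have hax : a ≠ x := (Finset.mem_erase.1 ha).1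
          obtain ⟨δ, d1, d2, d3, d4⟩ := hT.sub γ (g a) (g x) (g b) (g.injective.ne hax) hxa.symm
            (fun e => hba (hi (by exact_mod_cast hb) (by exact_mod_cast ha) e))
          have hC : ∀ y ∈ g '' ((E.erase x : Finset M) \ {a} : Set M), br γ y ≠ br γ (g a) := by
            rintro _ ⟨y, ⟨hy1, hy2⟩, rfl⟩ e
            exact hy2 (hi hy1 (by exact_mod_cast ha) e)
          have hZ := h M V B br G H hT hGH h4 γ (br γ (g a)) δ (br δ (g b)) d4
            (g '' ((E.erase x : Finset M) \ {a} : Set M)) (g a) (g x)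
            (((E.erase x).finite_toSet.subset Set.diff_subset).image _) hC (by
              rintro _ ⟨y, ⟨hy1, hy2⟩, rfl⟩ _ ⟨z, ⟨hz1, hz2⟩, rfl⟩ e
              rw [hi hy1 hz1 e]) d2 d3 d1
          have himg : insert (g a) (insert (g x) (g '' ((E.erase x : Finset M) \ {a} : Set M))) =
              g '' (E : Set M) := by
            ext y
            simp only [Set.mem_insert_iff, Set.mem_image, Set.mem_diff, Set.mem_singleton_iff,
              Finset.mem_coe, Finset.mem_erase]
            constructor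
            · rintro (rfl | rfl | ⟨z, ⟨⟨_, hz⟩, _⟩, rfl⟩)
              · exact ⟨a, (Finset.mem_erase.1 ha).2, rfl⟩
              · exact ⟨x, hx, rfl⟩
              · exact ⟨z, hz, rfl⟩
            · rintro ⟨z, hz, rfl⟩
              by_cases hza : z = a
              · left; rw [hza]
              · by_cases hzx : z = x
                · right; left; rw [hzx]
                · right; right
                  exact ⟨z, ⟨⟨hzx, hz⟩, hza⟩, rfl⟩
          rw [himg] at hZ
          exact (Z_image_iff hg).1 hZ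
        · push Not at hex
          refine ⟨g, hg, γ, ?_⟩
          intro y hy z hz e
          by_cases hyx : y = x
          · by_cases hzx : z = x
            · rw [hyx, hzx]
            · subst hyx
              exact absurd e (hex z (Finset.mem_erase.2 ⟨hzx, hz⟩))
          · by_cases hzx : z = x
            · subst hzx
              exact absurd e.symm (hex y (Finset.mem_erase.2 ⟨hyx, hy⟩))
            · exact hi (Finset.mem_coe.2 (Finset.mem_erase.2 ⟨hyx, hy⟩))
                (Finset.mem_coe.2 (Finset.mem_erase.2 ⟨hzx, hz⟩)) e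
  intro E hE
  have := key _ hE.toFinset rfl
  rwa [hE.coe_toFinset] at this

theorem main1 (h : S_HTF) : S_TOP := by
  classical
  intro M V B br G H hT hGH hcl hZ
  rw [eq_top_iff]
  intro σ _
  apply hcl
  intro A
  obtain ⟨h1, hh1, γ1, i1⟩ := hZ (A : Set M) A.finite_toSet
  obtain ⟨h2, hh2, γ2, i2⟩ := hZ (σ '' (A : Set M)) (A.finite_toSet.image _)
  obtain ⟨g1, hg1, e1⟩ := hT.nt γ1 γ2
  obtain ⟨x0, hx0⟩ := hT.inf γ2 (A.image (fun a => br γ2 (g1 (h1 a))) ∪
    A.image (fun a => br γ2 (h2 (σ a))))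
  rw [Finset.mem_union, not_or] at hx0
  have hf : ∀ a, h2 (σ (h1⁻¹ (g1⁻¹ (g1 (h1 a))))) = h2 (σ a) := by
    intro a
    simp
  obtain ⟨g2, hg2, -, e2⟩ := h M V B br G hT γ2 (br γ2 x0) ((fun a => g1 (h1 a)) '' (A : Set M))
    (fun y => h2 (σ (h1⁻¹ (g1⁻¹ y)))) (A.finite_toSet.image _) (by
      rintro _ ⟨a, ha, rfl⟩ e
      exact hx0.1 (Finset.mem_image.2 ⟨a, ha, e⟩)) (by
      rintro _ ⟨a, ha, rfl⟩ _ ⟨b, hb, rfl⟩ e
      have := (e1 _ _).1 e
      rw [i1 ha hb this]) (by
      rintro _ ⟨a, ha, rfl⟩ e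
      simp only at e
      rw [hf] at e
      exact hx0.2 (Finset.mem_image.2 ⟨a, ha, e⟩)) (by
      rintro _ ⟨a, ha, rfl⟩ _ ⟨b, hb, rfl⟩ e
      simp only at e
      rw [hf, hf] at e
      have h3 := i2 (Set.mem_image_of_mem σ ha) (Set.mem_image_of_mem σ hb) e
      rw [σ.injective h3])
  refine ⟨h2⁻¹ * g2 * g1 * h1, ?_, ?_⟩
  · exact H.mul_mem (H.mul_mem (H.mul_mem (H.inv_mem hh2) (hGH hg2)) (hGH hg1)) hh1
  · intro a ha
    have h3 := e2 (g1 (h1 a)) ⟨a, ha, rfl⟩
    rw [hf] at h3
    simp only [Equiv.Perm.coe_mul, Function.comp_apply]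
    rw [h3]
    simp

end Pool.Agent.W554.CGFour
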