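import Pool.Agent.W982.TA.Stm

/-!
# TA-G12: an empty lattice triangle has doubled area 1
-/

set_option autoImplicit false

namespace Pool.Agent.W982.TA

theorem g12 : TaskG12 := by
  rintro ⟨a1, a2⟩ ⟨b1, b2⟩ ⟨c1, c2⟩ hD hall
  simp only [dt] at hD ⊢
  set u1 := b1 - a1 with hu1
  set u2 := b2 - a2 with hu2
  set w1 := c1 - a1 with hw1
  set w2 := c2 - a2 with hw2
  set D := u1 * w2 - u2 * w1 with hDdef
  -- the small points
  have key : ∀ p1 p2 : ℤ, 0 ≤ p1 * w2 - p2 * w1 → 0 ≤ u1 * p2 - u2 * p1 →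
      (p1 * w2 - p2 * w1) + (u1 * p2 - u2 * p1) ≤ D →
      (p1 * w2 - p2 * w1 = 0 ∧ u1 * p2 - u2 * p1 = 0) ∨
      (p1 * w2 - p2 * w1 = D ∧ u1 * p2 - u2 * p1 = 0) ∨
      (p1 * w2 - p2 * w1 = 0 ∧ u1 * p2 - u2 * p1 = D) := by
    intro p1 p2 hx hy hxy
    have h := hall (a1 + p1, a2 + p2) (by
      refine ⟨?_, ?_, ?_⟩
      · simp only [dt]
        have : (b1 - a1) * (a2 + p2 - a2) - (b2 - a2) * (a1 + p1 - a1) = u1 * p2 - u2 * p1 := by
          rw [hu1, hu2]; ring
        rw [this]; exact hy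
      · simp only [dt]
        have : (c1 - b1) * (a2 + p2 - b2) - (c2 - b2) * (a1 + p1 - b1) =
            D - (p1 * w2 - p2 * w1) - (u1 * p2 - u2 * p1) := by
          rw [hDdef, hu1, hu2, hw1, hw2]; ring
        rw [this]; linarith
      · simp only [dt]
        have : (a1 - c1) * (a2 + p2 - c2) - (a2 - c2) * (a1 + p1 - c1) =
            p1 * w2 - p2 * w1 := by
          rw [hw1, hw2]; ring
        rw [this]; exact hx)
    rcases h with h | h | h
    · left
      rw [Prod.mk.injEq] at h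
      have e1 : p1 = 0 := by linarith [h.1]
      have e2 : p2 = 0 := by linarith [h.2]
      rw [e1, e2]; constructor <;> ring
    · right; left
      rw [Prod.mk.injEq] at h
      have e1 : p1 = u1 := by rw [hu1]; linarith [h.1]
      have e2 : p2 = u2 := by rw [hu2]; linarith [h.2]
      rw [e1, e2, hDdef]; constructor <;> ring
    · right; right
      rw [Prod.mk.injEq] at h
      have e1 : p1 = w1 := by rw [hw1]; linarith [h.1]
      have e2 : p2 = w2 := by rw [hw2]; linarith [h.2]
      rw [e1, e2, hDdef]; constructor <;> ring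
  -- divisibility
  have hdiv : ∀ p1 p2 : ℤ, D ∣ p1 * w2 - p2 * w1 ∧ D ∣ u1 * p2 - u2 * p1 := by
    intro p1 p2
    set x := p1 * w2 - p2 * w1 with hx
    set y := u1 * p2 - u2 * p1 with hy
    have hx0 := Int.emod_nonneg x hD.ne'
    have hx1 := Int.emod_lt_of_pos x hD
    have hy0 := Int.emod_nonneg y hD.ne'
    have hy1 := Int.emod_lt_of_pos y hD
    have ex : x % D = x - D * (x / D) := Int.emod_def x D
    have ey : y % D = y - D * (y / D) := Int.emod_def y D
    have e1 : (p1 - (x / D) * u1 - (y / D) * w1) * w2 - (p2 - (x / D) * u2 - (y / D) * w2) * w1 =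
        x % D := by
      rw [ex, hDdef]
      have : x = p1 * w2 - p2 * w1 := hx
      linear_combination -this
    have e2 : u1 * (p2 - (x / D) * u2 - (y / D) * w2) - u2 * (p1 - (x / D) * u1 - (y / D) * w1) =
        y % D := by
      rw [ey, hDdef]
      have : y = u1 * p2 - u2 * p1 := hy
      linear_combination -this
    have e3 : (u1 + w1 - (p1 - (x / D) * u1 - (y / D) * w1)) * w2 -
        (u2 + w2 - (p2 - (x / D) * u2 - (y / D) * w2)) * w1 = D - x % D := by
      rw [← e1, hDdef]; ring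
    have e4 : u1 * (u2 + w2 - (p2 - (x / D) * u2 - (y / D) * w2)) -
        u2 * (u1 + w1 - (p1 - (x / D) * u1 - (y / D) * w1)) = D - y % D := by
      rw [← e2, hDdef]; ring
    rw [Int.dvd_iff_emod_eq_zero, Int.dvd_iff_emod_eq_zero]
    by_cases hs : x % D + y % D ≤ D
    · have h := key _ _ (by rw [e1]; exact hx0) (by rw [e2]; exact hy0) (by rw [e1, e2]; exact hs)
      rw [e1, e2] at h
      rcases h with h | h | h
      · exact h
      · exact absurd h.1 hx1.ne
      · exact absurd h.2 hy1.ne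
    · push Not at hs
      have h := key _ _ (by rw [e3]; linarith) (by rw [e4]; linarith) (by rw [e3, e4]; linarith)
      rw [e3, e4] at h
      rcases h with h | h | h
      · exfalso; linarith [h.1]
      · exfalso; linarith [h.2]
      · exfalso; linarith [h.1]
  obtain ⟨d1, d2⟩ := hdiv 1 0
  obtain ⟨d3, d4⟩ := hdiv 0 1
  have q1 : D ∣ w2 := by simpa using d1
  have q2 : D ∣ u2 := by simpa using d2
  have q3 : D ∣ w1 := by simpa using d3
  have q4 : D ∣ u1 := by simpa using d4
  have hDD : D * D ∣ D := by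
    have h := Int.dvd_sub (mul_dvd_mul q4 q1) (mul_dvd_mul q2 q3)
    rwa [← hDdef] at h
  obtain ⟨t, ht⟩ := hDD
  have ht' : D * (D * t) = D * 1 := by rw [mul_one, ← mul_assoc]; exact ht.symm
  have h1 : D * t = 1 := mul_left_cancel₀ hD.ne' ht'
  exact Int.eq_one_of_dvd_one hD.le ⟨t, h1.symm⟩

end Pool.Agent.W982.TA
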