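import Pool.Agent.W915.WAPsiw
import Pool.Agent.W792.WA.Stm3

/-!
Project WA (helper792), part PSIX: the effective phase is Lipschitz in the law, explicit constant.
-/

set_option autoImplicit false

open MeasureTheory ProbabilityTheory Filter Topology
open scoped ENNReal

namespace Pool.Agent.W554.WAPsix

open Pool.Agent.W792.LL Pool.Agent.W792.WA Pool.Agent.W915.WA

theorem main : Pool.Agent.W792.WA.S_SYMB → Pool.Agent.W792.WA.S_CSYM →
    Pool.Agent.W792.WA.S_PSI → Pool.Agent.W792.WA.S_PSIX := by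
  intro hS hC hP q τ X Y hq0 hq hτ hcd d m hm
  have hq1 : 0 < 1 - q := by linarith
  have hlip := csym_lip hS hC X Y hq hm hτ hcd
  rw [ContinuousMap.norm_le _ (by positivity)]
  intro k
  rw [ContinuousMap.sub_apply]
  obtain ⟨a1, a2, a3, -⟩ := (hP (qlaw X) d q m m hq0 hq hm hm).1 k
  obtain ⟨b1, b2, b3, -⟩ := (hP (qlaw Y) d q m m hq0 hq hm hm).1 k
  have hk := (csym (qlaw X) m - csym (qlaw Y) m).norm_coe_le_norm k
  rw [ContinuousMap.sub_apply] at hk
  have hmk : ‖m k‖ ≤ 1 := (m.norm_coe_le_norm k).trans (by linarith)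
  set A := csym (qlaw X) m k
  set B := csym (qlaw Y) m k
  have e1 : (1 + m k * A)⁻¹ = 1 - m k * psi (qlaw X) m k := by
    rw [a2]; field_simp; ring
  have e2 : (1 + m k * B)⁻¹ = 1 - m k * psi (qlaw Y) m k := by
    rw [b2]; field_simp; ring
  have n1 : ‖(1 + m k * A)⁻¹‖ ≤ 2 := by
    rw [e1]
    refine (norm_sub_le _ _).trans ?_
    rw [norm_one, norm_mul]
    nlinarith [norm_nonneg (m k), norm_nonneg (psi (qlaw X) m k)]
  have n2 : ‖(1 + m k * B)⁻¹‖ ≤ 2 := by
    rw [e2]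
    refine (norm_sub_le _ _).trans ?_
    rw [norm_one, norm_mul]
    nlinarith [norm_nonneg (m k), norm_nonneg (psi (qlaw Y) m k)]
  have e3 : psi (qlaw X) m k - psi (qlaw Y) m k =
      (A - B) * ((1 + m k * A)⁻¹ * (1 + m k * B)⁻¹) := by
    rw [a2, b2, div_sub_div _ _ a1 b1, div_eq_mul_inv, mul_inv]
    congr 1; ring
  rw [e3, norm_mul, norm_mul]
  calc ‖A - B‖ * (‖(1 + m k * A)⁻¹‖ * ‖(1 + m k * B)⁻¹‖)
      ≤ ((1 + q) / (1 - q) ^ 3 * τ) * (2 * 2) := by
        refine mul_le_mul (hk.trans hlip) (mul_le_mul n1 n2 (norm_nonneg _) (by norm_num))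
          (by positivity) (by positivity)
    _ = 4 * (1 + q) / (1 - q) ^ 3 * τ := by ring
    _ ≤ 8 / (1 - q) ^ 3 * τ := by
        apply mul_le_mul_of_nonneg_right _ hτ
        apply div_le_div_of_nonneg_right _ (by positivity)
        linarith

end Pool.Agent.W554.WAPsix
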